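import Pool.Agent.BCS.Stmts

set_option autoImplicit false

noncomputable section

open scoped ContDiff Topology ComplexConjugate
open Set MeasureTheory

namespace Pool.Agent.BCS.H77

/-! ### integrals -/

theorem io {f : ℂ → ℝ} (hf : Continuous f) :
    IntegrableOn f (Metric.closedBall (0 : ℂ) 1) volume :=
  hf.continuousOn.integrableOn_compact (isCompact_closedBall _ _)

theorem dI_add (f g : ℂ → ℝ) (hf : Continuous f) (hg : Continuous g) :
    dI (fun z => f z + g z) = dI f + dI g := integral_add (io hf) (io hg)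

theorem dI_sub (f g : ℂ → ℝ) (hf : Continuous f) (hg : Continuous g) :
    dI (fun z => f z - g z) = dI f - dI g := integral_sub (io hf) (io hg)

theorem dI_mul (c : ℝ) (f : ℂ → ℝ) : dI (fun z => c * f z) = c * dI f :=
  integral_const_mul c f

theorem dI_mono {f g : ℂ → ℝ} (hf : Continuous f) (hg : Continuous g)
    (h : ∀ z, ‖z‖ ≤ 1 → f z ≤ g z) : dI f ≤ dI g := by
  refine setIntegral_mono_on (io hf) (io hg) Metric.isClosed_closedBall.measurableSet ?_
  intro z hz
  exact h z (by simpa using hz)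

theorem cp_cont : Continuous cp := by
  unfold cp
  fun_prop

theorem ii {f : ℂ → ℝ} (hf : Continuous f) :
    IntervalIntegrable (fun θ => f (cp θ)) volume 0 (2 * Real.pi) :=
  (hf.comp cp_cont).intervalIntegrable _ _

theorem cI_add (f g : ℂ → ℝ) (hf : Continuous f) (hg : Continuous g) :
    cI (fun z => f z + g z) = cI f + cI g := intervalIntegral.integral_add (ii hf) (ii hg)

theorem cI_sub (f g : ℂ → ℝ) (hf : Continuous f) (hg : Continuous g) :
    cI (fun z => f z - g z) = cI f - cI g := intervalIntegral.integral_sub (ii hf) (ii hg)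

theorem cI_mul (c : ℝ) (f : ℂ → ℝ) : cI (fun z => c * f z) = c * cI f :=
  intervalIntegral.integral_const_mul c _

theorem cI_congr {f g : ℂ → ℝ} (h : ∀ θ : ℝ, f (cp θ) = g (cp θ)) : cI f = cI g := by
  unfold cI
  exact intervalIntegral.integral_congr fun θ _ => h θ

theorem cI_nonpos {f : ℂ → ℝ} (h : ∀ θ : ℝ, f (cp θ) ≤ 0) : cI f ≤ 0 := by
  have h1 : 0 ≤ cI (fun z => (-1) * f z) := by
    unfold cI
    refine intervalIntegral.integral_nonneg (by positivity) fun θ _ => ?_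
    have := h θ
    linarith
  rw [cI_mul] at h1
  linarith

theorem cp_norm (θ : ℝ) : ‖cp θ‖ = 1 := Complex.norm_exp_ofReal_mul_I θ

theorem cp_sq (θ : ℝ) : (cp θ).re ^ 2 + (cp θ).im ^ 2 = 1 := by
  have h := Complex.sq_norm (cp θ)
  rw [cp_norm, Complex.normSq_apply] at h
  linarith

/-! ### derivatives -/

theorem fd_mul {f g : ℂ → ℝ} (hf : ContDiff ℝ 1 f) (hg : ContDiff ℝ 1 g) (z v : ℂ) :
    fderiv ℝ (fun z => f z * g z) z v = fderiv ℝ f z v * g z + f z * fderiv ℝ g z v := by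
  rw [fderiv_fun_mul (hf.differentiable one_ne_zero z) (hg.differentiable one_ne_zero z)]
  simp only [add_apply, smul_apply, smul_eq_mul]
  ring

theorem fd_sub {f g : ℂ → ℝ} (hf : ContDiff ℝ 1 f) (hg : ContDiff ℝ 1 g) (z v : ℂ) :
    fderiv ℝ (fun z => f z - g z) z v = fderiv ℝ f z v - fderiv ℝ g z v := by
  rw [fderiv_fun_sub (hf.differentiable one_ne_zero z) (hg.differentiable one_ne_zero z)]
  rfl

theorem fd_re {u : ℂ → ℂ} (hu : ContDiff ℝ 1 u) (z v : ℂ) :
    fderiv ℝ (fun z => (u z).re) z v = (fderiv ℝ u z v).re := by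
  have h := (Complex.reCLM.hasFDerivAt (x := u z)).comp z
    (hu.differentiable one_ne_zero z).hasFDerivAt
  have h2 : fderiv ℝ (fun z => (u z).re) z = Complex.reCLM.comp (fderiv ℝ u z) := h.fderiv
  rw [h2]
  rfl

theorem fd_im {u : ℂ → ℂ} (hu : ContDiff ℝ 1 u) (z v : ℂ) :
    fderiv ℝ (fun z => (u z).im) z v = (fderiv ℝ u z v).im := by
  have h := (Complex.imCLM.hasFDerivAt (x := u z)).comp z
    (hu.differentiable one_ne_zero z).hasFDerivAt
  have h2 : fderiv ℝ (fun z => (u z).im) z = Complex.imCLM.comp (fderiv ℝ u z) := h.fderiv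
  rw [h2]
  rfl

theorem sym2 {b : ℂ → ℝ} (hb : ContDiff ℝ 2 b) (z : ℂ) : dx (dy b) z = dy (dx b) z := by
  have h1 : IsSymmSndFDerivAt ℝ b z := hb.contDiffAt.isSymmSndFDerivAt (by simp)
  have hd : DifferentiableAt ℝ (fderiv ℝ b) z :=
    (hb.fderiv_right (m := 1) (by norm_num)).differentiable one_ne_zero z
  have e : ∀ v w : ℂ, fderiv ℝ (fun y => fderiv ℝ b y w) z v = fderiv ℝ (fderiv ℝ b) z v w := by
    intro v w
    have h2 := ((ContinuousLinearMap.apply ℝ ℝ w).hasFDerivAt (x := fderiv ℝ b z)).comp z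
      hd.hasFDerivAt
    have h3 : fderiv ℝ (fun y => fderiv ℝ b y w) z =
      (ContinuousLinearMap.apply ℝ ℝ w).comp (fderiv ℝ (fderiv ℝ b) z) := h2.fderiv
    rw [h3]
    rfl
  show fderiv ℝ (fun y => fderiv ℝ b y Complex.I) z 1 = fderiv ℝ (fun y => fderiv ℝ b y 1) z Complex.I
  rw [e, e]
  exact h1.eq 1 Complex.I

theorem cd_dx {b : ℂ → ℝ} (hb : ContDiff ℝ ∞ b) : ContDiff ℝ ∞ (dx b) :=
  (hb.fderiv_right (m := ∞) (by simp)).clm_apply contDiff_const

theorem cd_dy {b : ℂ → ℝ} (hb : ContDiff ℝ ∞ b) : ContDiff ℝ ∞ (dy b) :=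
  (hb.fderiv_right (m := ∞) (by simp)).clm_apply contDiff_const

/-- the derivative along the circle -/
theorem cp_deriv (θ : ℝ) : HasDerivAt cp (Complex.I * cp θ) θ := by
  unfold cp
  have h1 : HasDerivAt (fun t : ℝ => (t : ℂ) * Complex.I) (1 * Complex.I) θ :=
    (Complex.ofRealCLM.hasDerivAt (x := θ)).mul_const Complex.I
  have h2 := h1.cexp
  rw [one_mul, mul_comm] at h2
  exact h2

/-- the square root of the point of the circle -/
def hp (θ : ℝ) : ℂ := Complex.exp ((θ / 2 : ℝ) * Complex.I)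

theorem hp_norm (θ : ℝ) : ‖hp θ‖ = 1 := Complex.norm_exp_ofReal_mul_I (θ / 2)

theorem hp_sq (θ : ℝ) : hp θ ^ 2 = cp θ := by
  unfold hp cp
  rw [← Complex.exp_nat_mul]
  congr 1
  push_cast
  ring

theorem hp_deriv (θ : ℝ) : HasDerivAt hp (Complex.I / 2 * hp θ) θ := by
  unfold hp
  have h1 : HasDerivAt (fun t : ℝ => ((t / 2 : ℝ) : ℂ) * Complex.I) (1 / 2 * Complex.I) θ := by
    have h := ((Complex.ofRealCLM.hasDerivAt (x := θ)).mul_const (Complex.I / 2))
    have e : (fun t : ℝ => ((t / 2 : ℝ) : ℂ) * Complex.I) =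
        fun t : ℝ => Complex.ofRealCLM t * (Complex.I / 2) := by
      funext t
      show ((t / 2 : ℝ) : ℂ) * Complex.I = (t : ℂ) * (Complex.I / 2)
      push_cast
      ring
    rw [e]
    have e2 : (1 / 2 * Complex.I : ℂ) = Complex.ofRealCLM 1 * (Complex.I / 2) := by
      show (1 / 2 * Complex.I : ℂ) = ((1 : ℝ) : ℂ) * (Complex.I / 2)
      push_cast
      ring
    rw [e2]
    exact h
  have h2 := h1.cexp
  have e3 : Complex.exp (((θ / 2 : ℝ) : ℂ) * Complex.I) * (1 / 2 * Complex.I) =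
      Complex.I / 2 * Complex.exp (((θ / 2 : ℝ) : ℂ) * Complex.I) := by ring
  rw [e3] at h2
  exact h2

/-- the angular derivative of a function in `V0` -/
theorem ang_im {u : ℂ → ℂ} (hV : V0 u) (θ : ℝ) :
    (conj (u (cp θ)) * ang u (cp θ)).im = - Complex.normSq (u (cp θ)) / 2 := by
  obtain ⟨hu, h0⟩ := hV
  have hz : ∀ t, (hp t * u (cp t)).re = 0 := by
    intro t
    rw [← hp_sq]
    exact h0 _ (hp_norm t)
  have hu1 : ContDiff ℝ 1 u := hu.of_le (by exact_mod_cast le_top)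
  have hd : HasDerivAt (fun t => u (cp t)) (ang u (cp θ)) θ := by
    have h1 := (hu1.differentiable one_ne_zero (cp θ)).hasFDerivAt.comp_hasDerivAt θ (cp_deriv θ)
    have e : fderiv ℝ u (cp θ) (Complex.I * cp θ) = ang u (cp θ) := by
      unfold ang dx dy
      rw [← map_smul, ← map_smul, ← map_sub]
      congr 1
      refine Complex.ext ?_ ?_ <;> simp
    rw [e] at h1
    exact h1
  have hd2 := (hp_deriv θ).mul hd
  have hd3 := (Complex.reCLM.hasFDerivAt (x := hp θ * u (cp θ))).comp_hasDerivAt θ hd2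
  have hd4 : HasDerivAt (fun _ : ℝ => (0 : ℝ))
      (Complex.reCLM (Complex.I / 2 * hp θ * u (cp θ) + hp θ * ang u (cp θ))) θ := by
    have e : (fun _ : ℝ => (0 : ℝ)) = Complex.reCLM ∘ (hp * fun t => u (cp t)) := by
      funext t
      exact (hz t).symm
    rw [e]
    exact hd3
  have h5 : (Complex.I / 2 * hp θ * u (cp θ) + hp θ * ang u (cp θ)).re = 0 :=
    hd4.unique (hasDerivAt_const θ (0 : ℝ))
  have h6 := hz θ
  have hn : (hp θ).re ^ 2 + (hp θ).im ^ 2 = 1 := by
    have h := Complex.sq_norm (hp θ)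
    rw [hp_norm, Complex.normSq_apply] at h
    linarith
  generalize hp θ = w at h5 h6 hn
  generalize u (cp θ) = a at h5 h6 ⊢
  generalize ang u (cp θ) = b at h5 ⊢
  obtain ⟨w1, w2⟩ := w
  obtain ⟨a1, a2⟩ := a
  obtain ⟨b1, b2⟩ := b
  have g6 : w1 * a1 - w2 * a2 = 0 := by simpa using h6
  have g5 : -(w1 * a2 + w2 * a1) / 2 + (w1 * b1 - w2 * b2) = 0 := by
    have e : (Complex.I / 2 * (⟨w1, w2⟩ : ℂ) * (⟨a1, a2⟩ : ℂ) + (⟨w1, w2⟩ : ℂ) * (⟨b1, b2⟩ : ℂ)).re =
        -(w1 * a2 + w2 * a1) / 2 + (w1 * b1 - w2 * b2) := by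
      simp
      ring
    rw [← e]
    exact h5
  have gn : w1 ^ 2 + w2 ^ 2 = 1 := hn
  have eg : (conj (⟨a1, a2⟩ : ℂ) * (⟨b1, b2⟩ : ℂ)).im = a1 * b2 - a2 * b1 := by
    simp
    ring
  have en : Complex.normSq (⟨a1, a2⟩ : ℂ) = a1 ^ 2 + a2 ^ 2 := by
    rw [Complex.normSq_apply]
    ring
  rw [eg, en]
  have k1 : a1 = (w1 * a2 + w2 * a1) * w2 := by linear_combination (-a1) * gn + w1 * g6
  have k2 : a2 = (w1 * a2 + w2 * a1) * w1 := by linear_combination (-a2) * gn - w2 * g6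
  generalize w1 * a2 + w2 * a1 = Y at g5 k1 k2
  subst k1 k2
  linear_combination (-Y) * g5 + Y ^ 2 / 2 * gn

theorem fd_x (z v : ℂ) : fderiv ℝ (fun z : ℂ => z.re) z v = v.re := by
  have h : fderiv ℝ (fun z : ℂ => z.re) z = Complex.reCLM := Complex.reCLM.fderiv
  rw [h]
  rfl

theorem fd_y (z v : ℂ) : fderiv ℝ (fun z : ℂ => z.im) z v = v.im := by
  have h : fderiv ℝ (fun z : ℂ => z.im) z = Complex.imCLM := Complex.imCLM.fderiv
  rw [h]
  rfl

theorem coe (hG : GrnStmt) : CoeStmt := by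
  intro u hV
  obtain ⟨hu, h0⟩ := id hV
  have hle : (1 : WithTop ℕ∞) ≤ ∞ := by exact_mod_cast le_top
  have hle2 : (2 : WithTop ℕ∞) ≤ ∞ := by
    have h : ((2 : ℕ∞) : WithTop ℕ∞) ≤ ((⊤ : ℕ∞) : WithTop ℕ∞) := WithTop.coe_le_coe.2 le_top
    exact h
  have hu1 : ContDiff ℝ 1 u := hu.of_le hle
  obtain ⟨a, ha⟩ : ∃ a : ℂ → ℝ, a = fun z => (u z).re := ⟨_, rfl⟩
  obtain ⟨b, hb⟩ : ∃ b : ℂ → ℝ, b = fun z => (u z).im := ⟨_, rfl⟩
  have ca : ContDiff ℝ ∞ a := by rw [ha]; exact Complex.reCLM.contDiff.comp hu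
  have cb : ContDiff ℝ ∞ b := by rw [hb]; exact Complex.imCLM.contDiff.comp hu
  have cre : ContDiff ℝ ∞ (fun z : ℂ => z.re) := Complex.reCLM.contDiff
  have cim : ContDiff ℝ ∞ (fun z : ℂ => z.im) := Complex.imCLM.contDiff
  have uz : ∀ z, u z = ⟨a z, b z⟩ := fun z => by rw [ha, hb]
  have dxu : ∀ z, dx u z = ⟨dx a z, dx b z⟩ := fun z => by
    rw [ha, hb]
    unfold dx
    rw [fd_re hu1, fd_im hu1]
  have dyu : ∀ z, dy u z = ⟨dy a z, dy b z⟩ := fun z => by
    rw [ha, hb]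
    unfold dy
    rw [fd_re hu1, fd_im hu1]
  have nz : ∀ z, Complex.normSq (u z) = a z * a z + b z * b z := fun z => by
    rw [uz, Complex.normSq_mk]
  have dbz : ∀ z, dzb u z = ⟨(dx a z - dy b z) / 2, (dx b z + dy a z) / 2⟩ := fun z => by
    unfold dzb
    rw [dxu, dyu]
    refine Complex.ext ?_ ?_
    · simp; ring
    · simp; ring
  have nd : ∀ z, Complex.normSq (dzb u z) =
      ((dx a z - dy b z) ^ 2 + (dx b z + dy a z) ^ 2) / 4 := fun z => by
    rw [dbz, Complex.normSq_mk]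
    ring
  have angz : ∀ z, (conj (u z) * ang u z).im =
      z.re * (a z * dy b z - b z * dy a z) - z.im * (a z * dx b z - b z * dx a z) := fun z => by
    unfold ang
    rw [dxu, dyu, uz]
    simp
    ring
  have cax := cd_dx ca
  have cay := cd_dy ca
  have cbx := cd_dx cb
  have cby := cd_dy cb
  have wrel : ∀ θ : ℝ, (hp θ).re * a (cp θ) - (hp θ).im * b (cp θ) = 0 := by
    intro θ
    have h1 := h0 (hp θ) (hp_norm θ)
    rw [hp_sq, uz] at h1
    simpa using h1
  have cpr : ∀ θ : ℝ, (cp θ).re = (hp θ).re ^ 2 - (hp θ).im ^ 2 ∧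
      (cp θ).im = 2 * (hp θ).re * (hp θ).im := by
    intro θ
    rw [← hp_sq]
    constructor
    · simp [pow_two]
    · simp [pow_two]; ring
  constructor
  · -- first claim
    obtain ⟨P, hP⟩ : ∃ P : ℂ → ℝ, P = fun z => a z * dy b z - b z * dy a z := ⟨_, rfl⟩
    obtain ⟨Q, hQ⟩ : ∃ Q : ℂ → ℝ, Q = fun z => a z * dx b z - b z * dx a z := ⟨_, rfl⟩
    obtain ⟨N, hN⟩ : ∃ N : ℂ → ℝ, N = fun z => a z * a z + b z * b z := ⟨_, rfl⟩
    obtain ⟨R1, hR1⟩ : ∃ R1 : ℂ → ℝ, R1 = fun z => z.re * N z := ⟨_, rfl⟩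
    obtain ⟨R2, hR2⟩ : ∃ R2 : ℂ → ℝ, R2 = fun z => z.im * N z := ⟨_, rfl⟩
    have cP : ContDiff ℝ ∞ P := by rw [hP]; exact (ca.mul cby).sub (cb.mul cay)
    have cQ : ContDiff ℝ ∞ Q := by rw [hQ]; exact (ca.mul cbx).sub (cb.mul cax)
    have cN : ContDiff ℝ ∞ N := by rw [hN]; exact (ca.mul ca).add (cb.mul cb)
    have cR1 : ContDiff ℝ ∞ R1 := by rw [hR1]; exact cre.mul cN
    have cR2 : ContDiff ℝ ∞ R2 := by rw [hR2]; exact cim.mul cN
    have fP : ∀ z v, fderiv ℝ P z v = fderiv ℝ a z v * dy b z + a z * fderiv ℝ (dy b) z v -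
        (fderiv ℝ b z v * dy a z + b z * fderiv ℝ (dy a) z v) := by
      intro z v
      rw [hP, fd_sub ((ca.mul cby).of_le hle) ((cb.mul cay).of_le hle),
        fd_mul (ca.of_le hle) (cby.of_le hle), fd_mul (cb.of_le hle) (cay.of_le hle)]
    have fQ : ∀ z v, fderiv ℝ Q z v = fderiv ℝ a z v * dx b z + a z * fderiv ℝ (dx b) z v -
        (fderiv ℝ b z v * dx a z + b z * fderiv ℝ (dx a) z v) := by
      intro z v
      rw [hQ, fd_sub ((ca.mul cbx).of_le hle) ((cb.mul cax).of_le hle),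
        fd_mul (ca.of_le hle) (cbx.of_le hle), fd_mul (cb.of_le hle) (cax.of_le hle)]
    have hJ : ∀ z, dx P z - dy Q z = 2 * (dx a z * dy b z - dx b z * dy a z) := by
      intro z
      have h1 : dx P z = dx a z * dy b z + a z * dx (dy b) z -
        (dx b z * dy a z + b z * dx (dy a) z) := fP z 1
      have h2 : dy Q z = dy a z * dx b z + a z * dy (dx b) z -
        (dy b z * dx a z + b z * dy (dx a) z) := fQ z Complex.I
      rw [h1, h2, sym2 (cb.of_le hle2), sym2 (ca.of_le hle2)]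
      ring
    have fN : ∀ z v, fderiv ℝ N z v = 2 * (a z * fderiv ℝ a z v + b z * fderiv ℝ b z v) := by
      intro z v
      have e : N = fun z => a z * a z - (- b z) * b z := by
        rw [hN]; funext z; ring
      have cnb : ContDiff ℝ ∞ (fun z => - b z) := cb.neg
      rw [e, fd_sub ((ca.mul ca).of_le hle) ((cnb.mul cb).of_le hle),
        fd_mul (ca.of_le hle) (ca.of_le hle), fd_mul (cnb.of_le hle) (cb.of_le hle)]
      have e2 : fderiv ℝ (fun z => - b z) z v = - fderiv ℝ b z v := by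
        rw [fderiv_fun_neg]
        rfl
      rw [e2]
      ring
    have xR1 : ∀ z, dx R1 z = N z + z.re * (2 * (a z * dx a z + b z * dx b z)) := by
      intro z
      unfold dx
      rw [hR1, fd_mul (cre.of_le hle) (cN.of_le hle), fd_x, fN]
      simp
    have yR2 : ∀ z, dy R2 z = N z + z.im * (2 * (a z * dy a z + b z * dy b z)) := by
      intro z
      unfold dy
      rw [hR2, fd_mul (cim.of_le hle) (cN.of_le hle), fd_y, fN]
      simp
    have gP := (hG P (cP.of_le hle)).1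
    have gQ := (hG Q (cQ.of_le hle)).2
    have g1 := (hG R1 (cR1.of_le hle)).1
    have g2 := (hG R2 (cR2.of_le hle)).2
    have kP := (cd_dx cP).continuous
    have kQ := (cd_dy cQ).continuous
    have k1 := (cd_dx cR1).continuous
    have k2 := (cd_dy cR2).continuous
    have kre := cre.continuous
    have kim := cim.continuous
    -- the boundary
    have hA : dI (dx P) - dI (dy Q) = - (1 / 2) * cI N := by
      rw [gP, gQ, ← cI_sub (fun z => z.re * P z) (fun z => z.im * Q z) (kre.mul cP.continuous)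
        (kim.mul cQ.continuous), ← cI_mul]
      refine cI_congr fun θ => ?_
      have h1 := ang_im hV θ
      rw [angz, nz] at h1
      rw [hP, hQ, hN]
      linarith
    have hR : dI (dx R1) + dI (dy R2) = cI N := by
      rw [g1, g2, ← cI_add (fun z => z.re * R1 z) (fun z => z.im * R2 z)
        (kre.mul cR1.continuous) (kim.mul cR2.continuous)]
      refine cI_congr fun θ => ?_
      have h1 := cp_sq θ
      rw [hR1, hR2]
      linear_combination N (cp θ) * h1
    have kE : Continuous (fun z => Complex.normSq (dzb u z)) := by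
      have e : (fun z => Complex.normSq (dzb u z)) =
        fun z => ((dx a z - dy b z) ^ 2 + (dx b z + dy a z) ^ 2) / 4 := funext nd
      rw [e]
      exact ((((cax.continuous.sub cby.continuous).pow 2).add
        ((cbx.continuous.add cay.continuous).pow 2)).div_const 4)
    have hB : 0 ≤ 4 * dI (fun z => Complex.normSq (dzb u z)) + 2 * (dI (dx P) - dI (dy Q)) := by
      rw [← dI_mul, ← dI_sub (dx P) (dy Q) kP kQ, ← dI_mul,
        ← dI_add (fun z => 4 * Complex.normSq (dzb u z)) (fun z => 2 * (dx P z - dy Q z))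
        (kE.const_smul (4 : ℝ)) ((kP.sub kQ).const_smul (2 : ℝ))]
      refine integral_nonneg fun z => ?_
      show 0 ≤ 4 * Complex.normSq (dzb u z) + 2 * (dx P z - dy Q z)
      rw [nd, hJ]
      nlinarith [sq_nonneg (dx a z + dy b z), sq_nonneg (dx b z - dy a z)]
    have hC : dI N ≤ dI (dx R1) + dI (dy R2) +
        (4 * dI (fun z => Complex.normSq (dzb u z)) + (dI (dx P) - dI (dy Q))) := by
      rw [← dI_mul, ← dI_sub (dx P) (dy Q) kP kQ, ← dI_add (dx R1) (dy R2) k1 k2,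
        ← dI_add (fun z => 4 * Complex.normSq (dzb u z)) (fun z => dx P z - dy Q z)
        (kE.const_smul (4 : ℝ)) (kP.sub kQ),
        ← dI_add (fun z => dx R1 z + dy R2 z)
        (fun z => 4 * Complex.normSq (dzb u z) + (dx P z - dy Q z)) (k1.add k2)
        ((kE.const_smul (4 : ℝ)).add (kP.sub kQ))]
      refine dI_mono cN.continuous
        ((k1.add k2).add ((kE.const_smul (4 : ℝ)).add (kP.sub kQ))) fun z hz => ?_
      show N z ≤ dx R1 z + dy R2 z + (4 * Complex.normSq (dzb u z) + (dx P z - dy Q z))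
      rw [nd, hJ, xR1, yR2]
      have hz2 : z.re ^ 2 + z.im ^ 2 ≤ 1 := by
        have h := Complex.sq_norm z
        rw [Complex.normSq_apply] at h
        nlinarith [norm_nonneg z]
      rw [hN]
      simp only
      have q1 : 0 ≤ (a z + (z.re * dx a z + z.im * dy a z)) ^ 2 := sq_nonneg _
      have q2 : 0 ≤ (b z + (z.re * dx b z + z.im * dy b z)) ^ 2 := sq_nonneg _
      have q3 : (z.re * dx a z + z.im * dy a z) ^ 2 ≤ dx a z ^ 2 + dy a z ^ 2 := by
        nlinarith [sq_nonneg (z.re * dy a z - z.im * dx a z), sq_nonneg (dx a z),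
          sq_nonneg (dy a z)]
      have q4 : (z.re * dx b z + z.im * dy b z) ^ 2 ≤ dx b z ^ 2 + dy b z ^ 2 := by
        nlinarith [sq_nonneg (z.re * dy b z - z.im * dx b z), sq_nonneg (dx b z),
          sq_nonneg (dy b z)]
      linarith
    have eN : (fun z => Complex.normSq (u z)) = N := by
      rw [hN]; exact funext nz
    rw [eN]
    linarith
  · -- second claim
    obtain ⟨g1, hg1⟩ : ∃ g1 : ℂ → ℝ, g1 = fun z => a z * a z - b z * b z := ⟨_, rfl⟩
    obtain ⟨g2, hg2⟩ : ∃ g2 : ℂ → ℝ, g2 = fun z => a z * b z := ⟨_, rfl⟩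
    have c1 : ContDiff ℝ ∞ g1 := by rw [hg1]; exact (ca.mul ca).sub (cb.mul cb)
    have c2 : ContDiff ℝ ∞ g2 := by rw [hg2]; exact ca.mul cb
    have e : (fun z => (dzb u z * u z).re) = fun z => (1 / 4) * dx g1 z - (1 / 2) * dy g2 z := by
      funext z
      have h1 : dx g1 z = 2 * (a z * dx a z) - 2 * (b z * dx b z) := by
        unfold dx
        rw [hg1, fd_sub ((ca.mul ca).of_le hle) ((cb.mul cb).of_le hle),
          fd_mul (ca.of_le hle) (ca.of_le hle), fd_mul (cb.of_le hle) (cb.of_le hle)]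
        ring
      have h2 : dy g2 z = dy a z * b z + a z * dy b z := by
        unfold dy
        rw [hg2, fd_mul (ca.of_le hle) (cb.of_le hle)]
      rw [h1, h2, dbz, uz]
      simp
      ring
    have k1 := (cd_dx c1).continuous
    have k2 := (cd_dy c2).continuous
    rw [e, dI_sub (fun z => (1 / 4) * dx g1 z) (fun z => (1 / 2) * dy g2 z)
      (k1.const_smul (1 / 4 : ℝ)) (k2.const_smul (1 / 2 : ℝ)), dI_mul, dI_mul,
      (hG g1 (c1.of_le hle)).1, (hG g2 (c2.of_le hle)).2, ← cI_mul, ← cI_mul,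
      ← cI_sub (fun z => (1 / 4) * (z.re * g1 z)) (fun z => (1 / 2) * (z.im * g2 z))
        ((cre.continuous.mul c1.continuous).const_smul (1 / 4 : ℝ))
        ((cim.continuous.mul c2.continuous).const_smul (1 / 2 : ℝ))]
    refine cI_nonpos fun θ => ?_
    have h1 := wrel θ
    obtain ⟨h2, h3⟩ := cpr θ
    rw [h2, h3, hg1, hg2]
    simp only
    have h4 : 0 ≤ ((hp θ).re * b (cp θ) + (hp θ).im * a (cp θ)) ^ 2 := sq_nonneg _
    have h5 : ((hp θ).re * a (cp θ) - (hp θ).im * b (cp θ)) ^ 2 = 0 := by rw [h1]; ring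
    linarith

end Pool.Agent.BCS.H77
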